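import Mathlib
import Pool.Agent.Y682.Lcl

/-!
# Local points at the primes dividing `n` (QB-U4): the algebra and the squares
-/

set_option autoImplicit false
set_option linter.unusedSectionVars false

open NumberField IsDedekindDomain

namespace Pool.Agent.N689.QB

/-! ### Points of the four classes -/

section alg

variable {L : Type} [Field L]

/-- points of `y² = x (x + 9 m) (x - 16 m)` if `1 + 9 m` and `1 - 16 m` are nonzero squares -/
lemma point {m s t A B : L} (hs : s ^ 2 = 1 + 9 * m) (ht : t ^ 2 = 1 - 16 * m) (hs0 : s ≠ 0)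
    (ht0 : t ≠ 0) (hm : m ≠ 0) (h2 : (2 : L) ≠ 0) (h3 : (3 : L) ≠ 0) (h5 : (5 : L) ≠ 0)
    (h : (IsSquare A ∧ IsSquare B) ∨ (IsSquare (-A) ∧ IsSquare (B * m)) ∨
      (IsSquare (-(A * m)) ∧ IsSquare B) ∨ (IsSquare (A * m) ∧ IsSquare (B * m))) :
    ∃ x y : L, y ≠ 0 ∧ y ^ 2 = x * (x + 9 * m) * (x - 16 * m) ∧ IsSquare (x * A) ∧
      IsSquare ((x + 9 * m) * B) := by
  have h144 : (144 : L) ≠ 0 := by
    have : (144 : L) = 2 ^ 4 * 3 ^ 2 := by norm_num
    rw [this]; positivity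
  have h225 : (225 : L) ≠ 0 := by
    have : (225 : L) = 3 ^ 2 * 5 ^ 2 := by norm_num
    rw [this]; positivity
  have h400 : (400 : L) ≠ 0 := by
    have : (400 : L) = 2 ^ 4 * 5 ^ 2 := by norm_num
    rw [this]; positivity
  have e1 : (1 + 9 * m) = s ^ 2 := hs.symm
  rcases h with ⟨⟨u, hu⟩, ⟨v, hv⟩⟩ | ⟨⟨u, hu⟩, ⟨v, hv⟩⟩ | ⟨⟨u, hu⟩, ⟨v, hv⟩⟩ | ⟨⟨u, hu⟩, ⟨v, hv⟩⟩
  · refine ⟨1, s * t, mul_ne_zero hs0 ht0, ?_, ⟨u, ?_⟩, ⟨s * v, ?_⟩⟩
    · rw [mul_pow, hs, ht]; ring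
    · rw [one_mul, hu]
    · rw [hv, e1]; ring
  · refine ⟨-144 * m ^ 2, 144 * m ^ 2 * s * t, by positivity, ?_, ⟨12 * m * u, ?_⟩,
      ⟨3 * t * v, ?_⟩⟩
    · rw [mul_pow, mul_pow, hs, ht]; ring
    · linear_combination 144 * m ^ 2 * hu
    · linear_combination (9 * (1 - 16 * m)) * hv - 9 * v ^ 2 * ht
  · refine ⟨-9 * m * t ^ 2 / s ^ 2, 225 * m ^ 2 * t / s ^ 3, by positivity, ?_, ⟨3 * t * u / s, ?_⟩,
      ⟨15 * m * v / s, ?_⟩⟩
    · have e2 : -9 * m * t ^ 2 / s ^ 2 + 9 * m = 225 * m ^ 2 / s ^ 2 := by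
        field_simp
        linear_combination 9 * hs - 9 * ht
      have e3 : -9 * m * t ^ 2 / s ^ 2 - 16 * m = -25 * m / s ^ 2 := by
        field_simp
        linear_combination (-16) * hs - 9 * ht
      rw [e2, e3]
      field_simp
      ring
    · field_simp
      linear_combination 9 * hu
    · have e2 : -9 * m * t ^ 2 / s ^ 2 + 9 * m = 225 * m ^ 2 / s ^ 2 := by
        field_simp
        linear_combination 9 * hs - 9 * ht
      rw [e2, hv]
      field_simp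
      ring
  · refine ⟨16 * m * s ^ 2 / t ^ 2, 400 * m ^ 2 * s / t ^ 3, by positivity, ?_, ⟨4 * s * u / t, ?_⟩,
      ⟨5 * v / t, ?_⟩⟩
    · have e2 : 16 * m * s ^ 2 / t ^ 2 + 9 * m = 25 * m / t ^ 2 := by
        field_simp
        linear_combination 16 * hs + 9 * ht
      have e3 : 16 * m * s ^ 2 / t ^ 2 - 16 * m = 400 * m ^ 2 / t ^ 2 := by
        field_simp
        linear_combination 16 * hs - 16 * ht
      rw [e2, e3]
      field_simp
      ring
    · field_simp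
      linear_combination 16 * hu
    · have e2 : 16 * m * s ^ 2 / t ^ 2 + 9 * m = 25 * m / t ^ 2 := by
        field_simp
        linear_combination 16 * hs + 9 * ht
      rw [e2]
      field_simp
      linear_combination 25 * hv

end alg

/-! ### Squares in the completions -/

section sq

open Pool.Agent.Y682

variable {K : Type} [Field K] [NumberField K] {w : HeightOneSpectrum (𝓞 K)} {p : ℕ}

lemma int_notMem (hpw : ((p : ℕ) : 𝓞 K) ∈ w.asIdeal) (hp : p.Prime) {y : ℤ}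
    (hy : ¬ (p : ℤ) ∣ y) : ((y : ℤ) : 𝓞 K) ∉ w.asIdeal := by
  intro h
  have hco : IsCoprime (p : ℤ) y := (Nat.prime_iff_prime_int.1 hp).coprime_iff_not_dvd.2 hy
  obtain ⟨u, v, huv⟩ := hco
  apply w.isPrime.ne_top
  rw [Ideal.eq_top_iff_one]
  have h1 : ((1 : ℤ) : 𝓞 K) = u * ((p : ℕ) : 𝓞 K) + v * ((y : ℤ) : 𝓞 K) := by
    rw [← huv]; push_cast; ring
  rw [Int.cast_one] at h1
  rw [h1]
  exact w.asIdeal.add_mem (w.asIdeal.mul_mem_left _ hpw) (w.asIdeal.mul_mem_left _ h)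

lemma int_mem (hpw : ((p : ℕ) : 𝓞 K) ∈ w.asIdeal) {y : ℤ}
    (hy : (p : ℤ) ∣ y) : ((y : ℤ) : 𝓞 K) ∈ w.asIdeal := by
  obtain ⟨z, rfl⟩ := hy
  push_cast
  exact w.asIdeal.mul_mem_right _ hpw

lemma vv_int (y : ℤ) : vv w ((y : ℤ) : w.adicCompletion K) =
    w.valuation K (algebraMap (𝓞 K) K ((y : ℤ) : 𝓞 K)) := by
  rw [← vv_coe]
  congr 1
  simp

lemma vv_unit (hpw : ((p : ℕ) : 𝓞 K) ∈ w.asIdeal) (hp : p.Prime) {y : ℤ}
    (hy : ¬ (p : ℤ) ∣ y) : vv w ((y : ℤ) : w.adicCompletion K) = 1 := by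
  rw [vv_int]
  exact (HeightOneSpectrum.valuation_eq_one_iff_notMem w).2 (int_notMem hpw hp hy)

lemma vv_lt (hpw : ((p : ℕ) : 𝓞 K) ∈ w.asIdeal) {y : ℤ}
    (hy : (p : ℤ) ∣ y) : vv w ((y : ℤ) : w.adicCompletion K) < 1 := by
  rw [vv_int]
  exact (HeightOneSpectrum.valuation_lt_one_iff_mem w _).2 (int_mem hpw hy)

/-- Hensel's lemma for the integers -/
lemma sq_of_cong (hpw : ((p : ℕ) : 𝓞 K) ∈ w.asIdeal) (hp : p.Prime) (hp2 : p ≠ 2) {x y : ℤ}
    (hy : ¬ (p : ℤ) ∣ y) (h : (p : ℤ) ∣ x - y ^ 2) :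
    ∃ z : w.adicCompletion K, z ^ 2 = (x : ℤ) := by
  have hy1 := vv_unit hpw hp hy
  have hy0 : ((y : ℤ) : w.adicCompletion K) ≠ 0 := by
    intro h0
    rw [h0, map_zero] at hy1
    exact zero_ne_one hy1
  have h4 : ¬ (p : ℤ) ∣ 4 := by
    intro h4
    have h5 : p ∣ 2 ^ 2 := by
      have : p ∣ 4 := by exact_mod_cast h4
      simpa using this
    have h6 := hp.dvd_of_dvd_pow h5
    exact hp2 ((Nat.prime_dvd_prime_iff_eq hp Nat.prime_two).1 h6)
  have h41 : vv w (4 : w.adicCompletion K) = 1 := by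
    have := vv_unit hpw hp h4
    simpa using this
  refine exists_sqrt' w hy0 ?_
  rw [h41, hy1, one_pow, one_mul]
  have := vv_lt hpw h
  push_cast at this
  exact this

/-- squares of `ZMod p` -/
lemma sq_of_zmod (hpw : ((p : ℕ) : 𝓞 K) ∈ w.asIdeal) [Fact p.Prime] (hp2 : p ≠ 2) {x : ℤ}
    (hx : ¬ (p : ℤ) ∣ x) (h : IsSquare ((x : ℤ) : ZMod p)) :
    IsSquare ((x : ℤ) : w.adicCompletion K) := by
  obtain ⟨r, hr⟩ := h
  obtain ⟨y, rfl⟩ := ZMod.intCast_surjective r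
  have hd : (p : ℤ) ∣ x - y ^ 2 := by
    rw [← ZMod.intCast_zmod_eq_zero_iff_dvd]
    push_cast
    rw [hr]; ring
  have hy : ¬ (p : ℤ) ∣ y := by
    intro hy
    apply hx
    have := dvd_add hd (dvd_pow hy (two_ne_zero))
    simpa using this
  obtain ⟨z, hz⟩ := sq_of_cong hpw (Fact.out) hp2 hy hd
  exact ⟨z, by rw [← hz, sq]⟩

/-- integers which are squares in `ℚ_p` are squares in the completion -/
lemma sq_of_padic (hpw : ((p : ℕ) : 𝓞 K) ∈ w.asIdeal) [hpf : Fact p.Prime] (hp2 : p ≠ 2) {x : ℤ}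
    (h : IsSquare ((x : ℤ) : ℚ_[p])) : IsSquare ((x : ℤ) : w.adicCompletion K) := by
  have hp : p.Prime := hpf.out
  by_cases hx0 : x = 0
  · subst hx0; exact ⟨0, by simp⟩
  have hpz : (p : ℤ) ≠ 0 := by exact_mod_cast hp.ne_zero
  have hfin : FiniteMultiplicity (p : ℤ) x := by
    refine Int.finiteMultiplicity_iff.2 ⟨?_, hx0⟩
    simpa using hp.ne_one
  obtain ⟨u, hu, hpu⟩ := hfin.exists_eq_pow_mul_and_not_dvd
  set k := multiplicity (p : ℤ) x with hk
  have hpp : ((p : ℕ) : ℚ_[p]) ≠ 0 := by exact_mod_cast hp.ne_zero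
  obtain ⟨r, hr⟩ := h
  have hr0 : r ≠ 0 := by
    rintro rfl
    rw [mul_zero] at hr
    exact hx0 (by exact_mod_cast hr)
  have hu0 : u ≠ 0 := by
    rintro rfl
    exact hx0 (by rw [hu]; simp)
  have hval : (Padic.valuation ((x : ℤ) : ℚ_[p])) = k := by
    have e : ((x : ℤ) : ℚ_[p]) = (p : ℚ_[p]) ^ k * (u : ℤ) := by
      rw [hu]; push_cast; ring
    rw [e, Padic.valuation_mul (pow_ne_zero _ hpp) (by exact_mod_cast hu0), Padic.valuation_pow,
      Padic.valuation_p, Padic.valuation_intCast, padicValInt.eq_zero_of_not_dvd hpu]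
    simp
  have hev : Even k := by
    rw [hr, Padic.valuation_mul hr0 hr0] at hval
    have : (k : ℤ) = 2 * r.valuation := by linarith
    rw [Nat.even_iff]; omega
  obtain ⟨j, hj⟩ := hev
  have hus : IsSquare ((u : ℤ) : ℚ_[p]) := by
    refine ⟨r / (p : ℚ_[p]) ^ j, ?_⟩
    have e : ((x : ℤ) : ℚ_[p]) = ((p : ℚ_[p]) ^ j) ^ 2 * (u : ℤ) := by
      rw [hu, hj]; push_cast; ring
    rw [e] at hr
    field_simp
    rw [mul_comm, hr]; ring
  have hz : IsSquare ((u : ℤ) : ZMod p) := by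
    obtain ⟨r, hr⟩ := hus
    have h1 : ‖r‖ ≤ 1 := by
      by_contra hcon
      push Not at hcon
      have h2 : ‖((u : ℤ) : ℚ_[p])‖ ≤ 1 := Padic.norm_int_le_one u
      rw [hr, norm_mul] at h2
      nlinarith
    obtain ⟨v, hv⟩ : ∃ v : ℤ_[p], (v : ℚ_[p]) = r := ⟨⟨r, h1⟩, rfl⟩
    have h2 : ((u : ℤ) : ℤ_[p]) = v * v := by
      apply Subtype.ext
      rw [PadicInt.coe_mul, hv]
      push_cast
      exact hr
    have h3 := congrArg (PadicInt.toZMod (p := p)) h2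
    rw [map_mul, map_intCast] at h3
    exact ⟨_, h3⟩
  obtain ⟨z, hz⟩ := sq_of_zmod hpw hp2 hpu hz
  refine ⟨(p : w.adicCompletion K) ^ j * z, ?_⟩
  rw [hu, hj]
  push_cast
  rw [hz]; ring

/-- the units of `ℚ_p` are squares in the unramified extension -/
lemma sq_of_inert (hpw : ((p : ℕ) : 𝓞 K) ∈ w.asIdeal) [hpf : Fact p.Prime] (hp2 : p ≠ 2) {d : ℕ}
    {r : K} (hr : r ^ 2 = (d : K)) (hd : jacobiSym d p = -1) {x : ℤ}
    (hx : ¬ (p : ℤ) ∣ x) : IsSquare ((x : ℤ) : w.adicCompletion K) := by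
  have hp : p.Prime := hpf.out
  by_cases h : IsSquare ((x : ℤ) : ZMod p)
  · exact sq_of_zmod hpw hp2 hx h
  have hdp : ¬ (p : ℤ) ∣ (d : ℤ) := by
    intro hdp
    rw [← jacobiSym.legendreSym.to_jacobiSym] at hd
    rw [(legendreSym.eq_zero_iff p d).2 ((ZMod.intCast_zmod_eq_zero_iff_dvd _ p).2 hdp)] at hd
    norm_num at hd
  have hxd : ¬ (p : ℤ) ∣ x * d := by
    intro h
    rcases (Nat.prime_iff_prime_int.1 hp).dvd_or_dvd h with h | h
    · exact hx h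
    · exact hdp h
  have hx1 : legendreSym p x = -1 := (legendreSym.eq_neg_one_iff p).2 h
  have hd1 : legendreSym p d = -1 := by
    rw [← hd, ← jacobiSym.legendreSym.to_jacobiSym]
  have h1 : legendreSym p (x * d) = 1 := by
    rw [legendreSym.mul, hx1, hd1]; norm_num
  have h2 : IsSquare (((x * d : ℤ)) : ZMod p) := by
    rwa [legendreSym.eq_one_iff p (fun h0 => hxd ((ZMod.intCast_zmod_eq_zero_iff_dvd _ p).1 h0))]
      at h1
  obtain ⟨z, hz⟩ := sq_of_zmod hpw hp2 hxd h2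
  have hr' : (algebraMap K (w.adicCompletion K) r) ^ 2 = (d : w.adicCompletion K) := by
    rw [← map_pow, hr]; simp
  have hd0 : (d : w.adicCompletion K) ≠ 0 := by
    have h0 : d ≠ 0 := by
      rintro rfl
      exact hdp (dvd_zero _)
    have : CharZero (w.adicCompletion K) :=
      charZero_of_injective_algebraMap (algebraMap K (w.adicCompletion K)).injective
    exact_mod_cast h0
  have hr0 : algebraMap K (w.adicCompletion K) r ≠ 0 := by
    intro h0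
    rw [h0] at hr'
    apply hd0
    rw [← hr']; simp
  refine ⟨z / algebraMap K (w.adicCompletion K) r, ?_⟩
  field_simp
  rw [hr', sq]
  push_cast at hz
  exact hz

end sq

end Pool.Agent.N689.QB
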