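import Pool.Agent.N856.QB.Stm
import Pool.Agent.N689.QB.U4a

/-!
# Local points at the primes dividing `n` (QB-U4)
-/

set_option autoImplicit false

open NumberField IsDedekindDomain

namespace Pool.Agent.N689.QB

open Pool.Agent.N856.QB

variable {K : Type} [Field K] [NumberField K] {w : HeightOneSpectrum (𝓞 K)} {p : ℕ}

lemma sqfree_split [hpf : Fact p.Prime] {x : ℤ} (hx : Squarefree x) (h : (p : ℤ) ∣ x) :
    ∃ y : ℤ, x = p * y ∧ ¬ (p : ℤ) ∣ y := by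
  obtain ⟨y, rfl⟩ := h
  refine ⟨y, rfl, ?_⟩
  rintro ⟨z, rfl⟩
  have h1 : IsUnit (p : ℤ) := hx p ⟨z, by ring⟩
  exact (Nat.prime_iff_prime_int.1 hpf.out).not_isUnit h1

lemma sq_prod (hpw : ((p : ℕ) : 𝓞 K) ∈ w.asIdeal) [hpf : Fact p.Prime] (hp2 : p ≠ 2) {d : ℕ}
    {r : K} (hr : r ^ 2 = (d : K)) (hd : jacobiSym d p = -1) {x y e : ℤ}
    (hx : Squarefree x) (hy : Squarefree y) (hpx : (p : ℤ) ∣ x) (hpy : (p : ℤ) ∣ y)
    (he : ¬ (p : ℤ) ∣ e) : IsSquare ((e * (x * y) : ℤ) : w.adicCompletion K) := by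
  obtain ⟨x', rfl, hx'⟩ := sqfree_split hx hpx
  obtain ⟨y', rfl, hy'⟩ := sqfree_split hy hpy
  have hpp := Nat.prime_iff_prime_int.1 hpf.out
  have h1 : ¬ (p : ℤ) ∣ e * (x' * y') := by
    intro h
    rcases hpp.dvd_or_dvd h with h | h
    · exact he h
    · rcases hpp.dvd_or_dvd h with h | h
      · exact hx' h
      · exact hy' h
  obtain ⟨z, hz⟩ := sq_of_inert hpw hp2 hr hd h1
  refine ⟨p * z, ?_⟩
  push_cast at hz ⊢
  linear_combination ((p : w.adicCompletion K)) ^ 2 * hz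

/-- QB-U4 -/
theorem t_U4 : Pool.Agent.N856.QB.S_U4 := by
  intro n d h K _ _ r hK p hpf hpn w hpw a b ha hb hloc
  have hp := hpf.out
  have hpp := Nat.prime_iff_prime_int.1 hp
  have hn60 := h.hn.2
  have hnsq : Squarefree (n : ℤ) := Int.squarefree_natCast.2 h.hn.1
  have hp2 : p ≠ 2 := by rintro rfl; omega
  have hp3 : p ≠ 3 := by rintro rfl; omega
  have hp5 : p ≠ 5 := by rintro rfl; omega
  have hpn' : (p : ℤ) ∣ (n : ℤ) := by exact_mod_cast hpn
  have hn0 : (n : ℤ) ≠ 0 := hnsq.ne_zero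
  have hch : CharZero (w.adicCompletion K) :=
    charZero_of_injective_algebraMap (algebraMap K (w.adicCompletion K)).injective
  have h1 : ¬ (p : ℤ) ∣ 1 := hpp.not_dvd_one
  have hm1 : ¬ (p : ℤ) ∣ -1 := by rwa [dvd_neg]
  have hun : ∀ c : ℤ, ¬ (p : ℤ) ∣ 1 + c * n := by
    intro c hc
    exact h1 ((dvd_add_left (hpn'.mul_left c)).1 hc)
  obtain ⟨s, hs⟩ : ∃ s : w.adicCompletion K, s ^ 2 = ((1 + (-9) * n : ℤ) : w.adicCompletion K) :=
    sq_of_cong hpw hp hp2 (y := 1) h1 (by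
      have e : (1 + (-9) * (n : ℤ)) - 1 ^ 2 = (-9) * n := by ring
      rw [e]; exact hpn'.mul_left _)
  obtain ⟨t, ht⟩ : ∃ t : w.adicCompletion K, t ^ 2 = ((1 + 16 * n : ℤ) : w.adicCompletion K) :=
    sq_of_cong hpw hp hp2 (y := 1) h1 (by
      have e : (1 + 16 * (n : ℤ)) - 1 ^ 2 = 16 * n := by ring
      rw [e]; exact hpn'.mul_left _)
  have hs0 : s ≠ 0 := by
    rintro rfl
    have : ((1 + (-9) * n : ℤ) : w.adicCompletion K) ≠ 0 := by
      rw [Int.cast_ne_zero]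
      intro h0
      exact hun _ (h0 ▸ dvd_zero _)
    exact this (by rw [← hs]; simp)
  have ht0 : t ≠ 0 := by
    rintro rfl
    have : ((1 + 16 * n : ℤ) : w.adicCompletion K) ≠ 0 := by
      rw [Int.cast_ne_zero]
      intro h0
      exact hun _ (h0 ▸ dvd_zero _)
    exact this (by rw [← ht]; simp)
  have hm0 : ((-(n : ℤ) : ℤ) : w.adicCompletion K) ≠ 0 := by
    rw [Int.cast_ne_zero]; omega
  have key : (IsSquare ((a : ℤ) : w.adicCompletion K) ∧ IsSquare ((b : ℤ) : w.adicCompletion K)) ∨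
      (IsSquare ((-a : ℤ) : w.adicCompletion K) ∧
        IsSquare ((b * (-(n : ℤ)) : ℤ) : w.adicCompletion K)) ∨
      (IsSquare ((-(a * (-(n : ℤ))) : ℤ) : w.adicCompletion K) ∧
        IsSquare ((b : ℤ) : w.adicCompletion K)) ∨
      (IsSquare ((a * (-(n : ℤ)) : ℤ) : w.adicCompletion K) ∧
        IsSquare ((b * (-(n : ℤ)) : ℤ) : w.adicCompletion K)) := by
    have hgcd : (d : ℤ).gcd p = 1 := by
      have h2 : Nat.Coprime d p := (Nat.Coprime.coprime_dvd_left hpn h.hc).symm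
      simpa [Int.gcd_natCast_natCast] using h2
    rcases jacobiSym.eq_one_or_neg_one hgcd with hj | hj
    · rcases hloc hj with ⟨h3, h4⟩ | ⟨h3, h4⟩ | ⟨h3, h4⟩ | ⟨h3, h4⟩
      · exact Or.inl ⟨sq_of_padic hpw hp2 h3, sq_of_padic hpw hp2 h4⟩
      · exact Or.inr (Or.inl ⟨sq_of_padic hpw hp2 h3, sq_of_padic hpw hp2 h4⟩)
      · exact Or.inr (Or.inr (Or.inl ⟨sq_of_padic hpw hp2 h3, sq_of_padic hpw hp2 h4⟩))
      · exact Or.inr (Or.inr (Or.inr ⟨sq_of_padic hpw hp2 h3, sq_of_padic hpw hp2 h4⟩))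
    · by_cases hpa : (p : ℤ) ∣ a <;> by_cases hpb : (p : ℤ) ∣ b
      · refine Or.inr (Or.inr (Or.inr ⟨?_, ?_⟩))
        · have := sq_prod hpw hp2 hK.hr hj ha hnsq hpa hpn' hm1
          rwa [show (-1 : ℤ) * (a * n) = a * (-(n : ℤ)) by ring] at this
        · have := sq_prod hpw hp2 hK.hr hj hb hnsq hpb hpn' hm1
          rwa [show (-1 : ℤ) * (b * n) = b * (-(n : ℤ)) by ring] at this
      · refine Or.inr (Or.inr (Or.inl ⟨?_, sq_of_inert hpw hp2 hK.hr hj hpb⟩))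
        have := sq_prod hpw hp2 hK.hr hj ha hnsq hpa hpn' h1
        rwa [show (1 : ℤ) * (a * n) = -(a * (-(n : ℤ))) by ring] at this
      · refine Or.inr (Or.inl ⟨sq_of_inert hpw hp2 hK.hr hj (by rwa [dvd_neg]), ?_⟩)
        have := sq_prod hpw hp2 hK.hr hj hb hnsq hpb hpn' hm1
        rwa [show (-1 : ℤ) * (b * n) = b * (-(n : ℤ)) by ring] at this
      · exact Or.inl ⟨sq_of_inert hpw hp2 hK.hr hj hpa, sq_of_inert hpw hp2 hK.hr hj hpb⟩
  obtain ⟨x, y, hy0, hy, hxa, hxb⟩ := point (L := w.adicCompletion K)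
    (m := ((-(n : ℤ) : ℤ) : w.adicCompletion K)) (s := s) (t := t)
    (A := ((a : ℤ) : w.adicCompletion K)) (B := ((b : ℤ) : w.adicCompletion K))
    (by rw [hs]; push_cast; ring) (by rw [ht]; push_cast; ring) hs0 ht0 hm0 two_ne_zero
    three_ne_zero (by norm_num) (by
      push_cast at key ⊢
      exact key)
  refine ⟨x, y, hy0, ?_, ?_, ?_⟩
  · rw [hy]; push_cast; ring
  · rw [Int.cast_zero, sub_zero]; exact hxa
  · have e : x - ((-9 * (-n : ℤ) : ℤ) : w.adicCompletion K) =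
        x + 9 * ((-(n : ℤ) : ℤ) : w.adicCompletion K) := by
      push_cast; ring
    rw [e]
    exact hxb

end Pool.Agent.N689.QB
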